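import Pool.Agent.NBT.StmtsC

/-!
# NBT, row SCA: the data of a large strong component
-/

set_option autoImplicit false

open Matrix Filter Topology

namespace Pool.Agent.NBT.H95

open Pool.Agent.PFS Pool.Agent.PFJ

/-- a path from `Q` to the complement of `Q` leaves `Q` -/
theorem exit {α : Type*} {D : α → α → Prop} (Q : α → Prop) {a b : α} (ha : Q a)
    (h : Relation.ReflTransGen D a b) :
    ¬ Q b → ∃ k r, Q k ∧ ¬ Q r ∧ D k r ∧ Relation.ReflTransGen D r b := by
  induction h with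
  | refl => exact fun hb => absurd ha hb
  | @tail c d hac hcd ih =>
    intro hd
    by_cases hc : Q c
    · exact ⟨c, d, hc, hd, hcd, Relation.ReflTransGen.refl⟩
    · obtain ⟨k, r, hk, hr, hkr, hrc⟩ := ih hc
      exact ⟨k, r, hk, hr, hkr, hrc.tail hcd⟩

theorem comb {K : ℕ} (D : Fin K → Fin K → Prop) (Rg : Finset (Fin K) → Prop)
    (hA : ∀ S, ¬ Rg S → ∃ k ∈ S, ∃ r, r ∉ S ∧ D k r)
    (hB : ∀ S k r, k ∈ S → r ∉ S → D k r → ¬ Rg S)
    {i j l : Fin K} (hij : i ≠ j) (hjl : j ≠ l) (hil : i ≠ l)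
    (h1 : Relation.ReflTransGen D i j) (h2 : Relation.ReflTransGen D j l)
    (h3 : Relation.ReflTransGen D l i) :
    ∃ I Up : Finset (Fin K), (∀ i ∈ I, i ∉ Up) ∧ Rg Up ∧ Rg (I ∪ Up) ∧
      (∀ m ∈ I, ¬ Rg (insert m Up)) ∧
      (∀ v ∈ I, ∀ j ∈ I, v ≠ j → ¬ Rg (insert v (insert j Up))) ∧
      ∃ v ∈ I, ∃ j ∈ I, v ≠ j ∧ D v j := by
  classical
  set R : Fin K → Fin K → Prop := Relation.ReflTransGen D with hR
  let I : Finset (Fin K) := Finset.univ.filter fun v => R i v ∧ R v i
  let Up : Finset (Fin K) := Finset.univ.filter fun v => R i v ∧ ¬ R v i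
  have mI : ∀ v, v ∈ I ↔ R i v ∧ R v i := fun v => by simp [I]
  have mU : ∀ v, v ∈ Up ↔ R i v ∧ ¬ R v i := fun v => by simp [Up]
  have hiI : i ∈ I := (mI i).2 ⟨Relation.ReflTransGen.refl, Relation.ReflTransGen.refl⟩
  have hjI : j ∈ I := (mI j).2 ⟨h1, h2.trans h3⟩
  have hlI : l ∈ I := (mI l).2 ⟨h1.trans h2, h3⟩
  -- the main step
  have main : ∀ v ∈ I, ∀ q ∈ I, ¬ Rg (insert v (insert q Up)) := by
    intro v hv q hq
    obtain ⟨m', hm', hmv, hmq⟩ : ∃ m' ∈ I, m' ≠ v ∧ m' ≠ q := by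
      by_cases e1 : i ≠ v ∧ i ≠ q
      · exact ⟨i, hiI, e1⟩
      by_cases e2 : j ≠ v ∧ j ≠ q
      · exact ⟨j, hjI, e2⟩
      by_cases e3 : l ≠ v ∧ l ≠ q
      · exact ⟨l, hlI, e3⟩
      exfalso
      have f1 : i = v ∨ i = q := by
        by_contra hc
        push Not at hc
        exact e1 hc
      have f2 : j = v ∨ j = q := by
        by_contra hc
        push Not at hc
        exact e2 hc
      have f3 : l = v ∨ l = q := by
        by_contra hc
        push Not at hc
        exact e3 hc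
      rcases f1 with f1 | f1 <;> rcases f2 with f2 | f2 <;> rcases f3 with f3 | f3
      · exact hij (f1.trans f2.symm)
      · exact hij (f1.trans f2.symm)
      · exact hil (f1.trans f3.symm)
      · exact hjl (f2.trans f3.symm)
      · exact hjl (f2.trans f3.symm)
      · exact hil (f1.trans f3.symm)
      · exact hij (f1.trans f2.symm)
      · exact hij (f1.trans f2.symm)
    have hvm : R v m' := ((mI v).1 hv).2.trans ((mI m').1 hm').1
    obtain ⟨k, r, hk, hr, hkr, hrm⟩ := exit (D := D) (fun z => z = v ∨ z = q) (Or.inl rfl) hvm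
      (by rintro (h | h); exacts [hmv h, hmq h])
    have hik : R i k := by
      rcases hk with hk | hk
      · rw [hk]; exact ((mI v).1 hv).1
      · rw [hk]; exact ((mI q).1 hq).1
    have hir : R i r := hik.tail hkr
    have hri : R r i := Relation.ReflTransGen.trans hrm ((mI m').1 hm').2
    refine hB _ k r ?_ ?_ hkr
    · rcases hk with hk | hk
      · rw [hk]; exact Finset.mem_insert_self _ _
      · rw [hk]; exact Finset.mem_insert_of_mem (Finset.mem_insert_self _ _)
    · intro hm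
      rw [Finset.mem_insert, Finset.mem_insert] at hm
      rcases hm with hm | hm | hm
      · exact hr (Or.inl hm)
      · exact hr (Or.inr hm)
      · exact ((mU r).1 hm).2 hri
  refine ⟨I, Up, ?_, ?_, ?_, ?_, fun v hv q hq _ => main v hv q hq, ?_⟩
  · intro v hv hu
    exact ((mU v).1 hu).2 ((mI v).1 hv).2
  · by_contra hc
    obtain ⟨k, hk, r, hr, hkr⟩ := hA _ hc
    obtain ⟨hik, hki⟩ := (mU k).1 hk
    have hir : R i r := hik.tail hkr
    have hri : R r i := by
      by_contra hn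
      exact hr ((mU r).2 ⟨hir, hn⟩)
    exact hki (Relation.ReflTransGen.head hkr hri)
  · by_contra hc
    obtain ⟨k, hk, r, hr, hkr⟩ := hA _ hc
    have hik : R i k := by
      rcases Finset.mem_union.1 hk with h | h
      · exact ((mI k).1 h).1
      · exact ((mU k).1 h).1
    have hir : R i r := hik.tail hkr
    apply hr
    by_cases hri : R r i
    · exact Finset.mem_union_left _ ((mI r).2 ⟨hir, hri⟩)
    · exact Finset.mem_union_right _ ((mU r).2 ⟨hir, hri⟩)
  · intro m hm
    have h := main m hm m hm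
    rwa [Finset.insert_idem] at h
  · obtain ⟨k, r, hk, hr, hkr, hrj⟩ := exit (D := D) (fun z => z = i) rfl h1 (fun h => hij h.symm)
    have hk' : k = i := hk
    rw [hk'] at hkr
    refine ⟨i, hiI, r, (mI r).2 ⟨Relation.ReflTransGen.single hkr, ?_⟩, fun h => hr h.symm, hkr⟩
    exact (Relation.ReflTransGen.trans hrj h2).trans h3

theorem sca (hRGA : RgaStmt) (hRGB : RgbStmt) : ScaStmt := by
  intro n C Γ Γ₀ K T c hT hM hne i j l hij hjl hil h1 h2 h3
  obtain ⟨I, Up, a1, a2, a3, a4, a5, a6⟩ := comb (Arr C T) (Rig C T)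
    (fun S hS => hRGA n C Γ Γ₀ K T c hT hM hne S hS)
    (fun S k r hk hr hkr => hRGB n C Γ Γ₀ K T c hT S k r hk hr hkr) hij hjl hil h1 h2 h3
  exact ⟨I, Up, a1, a2, a3, a4, a5, a6⟩

end Pool.Agent.NBT.H95
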