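import Pool.Agent.NBT.StmtsA

/-!
# NBT, row ZMA: survival of moves under `P`
-/

set_option autoImplicit false

open Matrix Filter Topology

namespace Pool.Agent.NBT.H95

open Pool.Agent.PFS Pool.Agent.PFJ

theorem zma (hTBF : TbfStmt) (hPJE : PjeStmt) (hPJF : PjfStmt) (hMVB : MvbStmt)
    (hZPR : ZprStmt) (hZUP : ZupStmt) : ZmaStmt := by
  intro n C Γ Γ₀ K T c hT w hw S θ g s W P Q hθ hg hs hZ k x hM hk hex
  have hW : T W := hZ.tw
  obtain ⟨⟨z1, z1', z1''⟩, ⟨z2, z2'⟩, z3, z4, z5⟩ :=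
    hZPR n C Γ Γ₀ K T c hT w hw S θ g s W P Q hθ hg hs hZ
  obtain ⟨u1, -⟩ := hZUP n C Γ Γ₀ K T c hT w hw S θ g s W P Q hθ hg hs hZ
  obtain ⟨-, -, -, -, tle, tmem, -⟩ := hTBF n C Γ Γ₀ K T c hT w hw
  obtain ⟨-, -, -, -, -, tmemW, -⟩ := hTBF n C Γ Γ₀ K T c hT W hW
  have hWk : P (w k) = W k := z1 k hk
  have hxcl : x ∈ closure C := ((hMVB n C Γ Γ₀ K T c hT w hw k).1 x hM).1
  -- uniqueness of the projections
  have uw : ∀ (I : Finset (Fin K)) (p p' : V n →ₗ[ℝ] V n), PrI C w I p → PrI C w I p' →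
      p' = p := fun I p p' hp hp' => (hPJF n C Γ Γ₀ K T c hT w hw I p hp).2.2.1 p' hp'
  have uW : ∀ (I : Finset (Fin K)) (p p' : V n →ₗ[ℝ] V n), PrI C W I p → PrI C W I p' →
      p' = p := fun I p p' hp hp' => (hPJF n C Γ Γ₀ K T c hT W hW I p hp).2.2.1 p' hp'
  -- the case `i ∉ S`
  have out : ∀ i, i ∉ S → (Sx C W k (P x) i ↔ Sx C w k x i) := by
    intro i hi
    have hJ : ({k, i} : Finset (Fin K)) ⊆ Sᶜ := by
      intro m hm
      rw [Finset.mem_insert, Finset.mem_singleton] at hm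
      rw [Finset.mem_compl]
      rcases hm with hm | hm
      · rw [hm]; exact hk
      · rw [hm]; exact hi
    constructor
    · rintro ⟨hik, qW, hqW, hne⟩
      obtain ⟨q, hq⟩ := hPJE n C Γ Γ₀ K T c hT w hw {k, i}
      refine ⟨hik, q, hq, fun a ha => hne a ?_⟩
      rw [z4 _ hJ q qW hq hqW x, ha, map_smul, hWk]
    · rintro ⟨hik, q, hq, hne⟩
      obtain ⟨qW, hqW⟩ := hPJE n C Γ Γ₀ K T c hT W hW {k, i}
      refine ⟨hik, qW, hqW, fun a ha => hne a ?_⟩
      rw [z4 _ hJ q qW hq hqW x, ← hWk] at ha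
      -- `z = q x - a w_k` is killed by `P`
      have hzB : q x - a • w k ∈ BI C w Sᶜ := by
        refine tle _ _ hJ (Submodule.sub_mem _ (hq.mem x) (Submodule.smul_mem _ _ ?_))
        exact (tmem k _).2 (Finset.mem_insert_self _ _)
      have hz0 : P (q x - a • w k) = 0 := by
        rw [map_sub, map_smul, ha, sub_self]
      have hzc : q x - a • w k ∈ closure C := by
        refine hZ.injP _ hzB ?_
        rw [hz0]; exact hT.cc.toPCone.zero_cl
      have hzc' : -(q x - a • w k) ∈ closure C := by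
        refine hZ.injP _ (Submodule.neg_mem _ hzB) ?_
        rw [map_neg, hz0, neg_zero]; exact hT.cc.toPCone.zero_cl
      exact sub_eq_zero.1 (hT.cc.toPCone.salient _ hzc hzc')
  -- the case `i ∈ S`
  have inn : ∀ i, i ∈ S → ¬ Sx C W k (P x) i := by
    rintro i hi ⟨hik, qW, hqW, hne⟩
    obtain ⟨a, ha⟩ := (hMVB n C Γ Γ₀ K T c hT W hW k).2 Sᶜ (Finset.mem_compl.2 hk) i
      (fun hc => (Finset.mem_compl.1 hc) hi) qW hqW (P x) (z3 x) (z2 x hxcl)
    exact hne a ha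
  refine ⟨⟨u1 k hk x hM.mem, ?_⟩, ?_⟩
  · intro a ha
    obtain ⟨i, hi, hx⟩ := hex
    obtain ⟨hik, qW, hqW, hne⟩ := (out i hi).2 hx
    refine hne a ?_
    rw [ha, map_smul, hqW.idB _ ((tmemW k _).2 (Finset.mem_insert_self _ _))]
  · intro i
    by_cases hi : i ∈ S
    · constructor
      · intro h; exact absurd h (inn i hi)
      · rintro ⟨_, h⟩; exact absurd hi h
    · rw [out i hi]
      exact ⟨fun h => ⟨h, hi⟩, fun h => h.1⟩

end Pool.Agent.NBT.H95
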